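import Pool.Agent.H516.PCF.All

/-!
# Basic facts on real valuations of an algebraically closed field
-/

set_option autoImplicit false

namespace Pool.Agent.H196.PCF

open Pool.Agent.H516.PCF

section

variable {F : Type} [Field F] {p : ℕ} {w : F → ℝ}

theorem w_one (h : NA p w) : w 1 = 0 := by
  have := h.mul 1 1 one_ne_zero one_ne_zero
  rw [mul_one] at this
  linarith

theorem w_neg_one (h : NA p w) : w (-1) = 0 := by
  have h1 := h.mul (-1) (-1) (neg_ne_zero.2 one_ne_zero) (neg_ne_zero.2 one_ne_zero)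
  rw [neg_mul_neg, mul_one, w_one h] at h1
  linarith

theorem w_neg (h : NA p w) {x : F} (hx : x ≠ 0) : w (-x) = w x := by
  have h1 := h.mul (-1) x (neg_ne_zero.2 one_ne_zero) hx
  rw [neg_one_mul, w_neg_one h, zero_add] at h1
  exact h1

theorem w_inv (h : NA p w) {x : F} (hx : x ≠ 0) : w x⁻¹ = -w x := by
  have h1 := h.mul x x⁻¹ hx (inv_ne_zero hx)
  rw [mul_inv_cancel₀ hx, w_one h] at h1
  linarith

theorem w_pow (h : NA p w) {x : F} (hx : x ≠ 0) (n : ℕ) : w (x ^ n) = n * w x := by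
  induction n with
  | zero => simp [w_one h]
  | succ n ih =>
    rw [pow_succ, h.mul _ _ (pow_ne_zero n hx) hx, ih]
    push_cast
    ring

theorem w_zpow (h : NA p w) {x : F} (hx : x ≠ 0) (n : ℤ) : w (x ^ n) = n * w x := by
  cases n with
  | ofNat n =>
    rw [Int.ofNat_eq_natCast, zpow_natCast, w_pow h hx]
    simp
  | negSucc n =>
    rw [zpow_negSucc, w_inv h (pow_ne_zero _ hx), w_pow h hx]
    push_cast
    ring

theorem w_div (h : NA p w) {x y : F} (hx : x ≠ 0) (hy : y ≠ 0) : w (x / y) = w x - w y := by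
  rw [div_eq_mul_inv, h.mul _ _ hx (inv_ne_zero hy), w_inv h hy]
  ring

theorem w_sub_comm (h : NA p w) {x y : F} (hxy : x ≠ y) : w (x - y) = w (y - x) := by
  rw [← neg_sub y x, w_neg h (sub_ne_zero.2 hxy.symm)]

theorem w_add_of_lt (h : NA p w) {x y : F} (hx : x ≠ 0) (hy : y ≠ 0) (hlt : w x < w y) :
    x + y ≠ 0 ∧ w (x + y) = w x := by
  have h0 : x + y ≠ 0 := by
    intro h0
    have : y = -x := by linear_combination h0
    rw [this, w_neg h hx] at hlt
    exact lt_irrefl _ hlt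
  refine ⟨h0, le_antisymm ?_ ?_⟩
  · have h1 := h.add (x + y) (-y) h0 (neg_ne_zero.2 hy) (by rw [add_neg_cancel_right]; exact hx)
    rw [add_neg_cancel_right, w_neg h hy] at h1
    by_contra hc
    push Not at hc
    exact absurd h1 (not_le.2 (lt_min hc hlt))
  · have h1 := h.add x y hx hy h0
    rwa [min_eq_left hlt.le] at h1

theorem w_tri (h : NA p w) {a b c : F} (hab : a ≠ b) (hbc : b ≠ c) (hac : a ≠ c) :
    min (w (a - b)) (w (b - c)) ≤ w (a - c) := by
  have h1 := h.add (a - b) (b - c) (sub_ne_zero.2 hab) (sub_ne_zero.2 hbc)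
    (by rw [sub_add_sub_cancel]; exact sub_ne_zero.2 hac)
  rwa [sub_add_sub_cancel] at h1

theorem w_tri_lt (h : NA p w) {a b c : F} (hab : a ≠ b) (hbc : b ≠ c)
    (hlt : w (a - b) < w (b - c)) : a ≠ c ∧ w (a - c) = w (a - b) := by
  have h1 := w_add_of_lt h (sub_ne_zero.2 hab) (sub_ne_zero.2 hbc) hlt
  rw [sub_add_sub_cancel] at h1
  exact ⟨sub_ne_zero.1 h1.1, h1.2⟩

variable [CharZero F]

theorem w_nat_nonneg (h : NA p w) (n : ℕ) (hn : n ≠ 0) : 0 ≤ w (n : F) := by
  induction n with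
  | zero => exact absurd rfl hn
  | succ n ih =>
    rcases Nat.eq_zero_or_pos n with rfl | hpos
    · simp [w_one h]
    · have hn0 : n ≠ 0 := hpos.ne'
      have h1 := h.add (n : F) 1 (Nat.cast_ne_zero.2 hn0) one_ne_zero
        (by exact_mod_cast Nat.succ_ne_zero n)
      rw [w_one h] at h1
      rw [Nat.cast_succ]
      exact le_trans (le_min (ih hn0) le_rfl) h1

theorem w_int_nonneg (h : NA p w) (m : ℤ) (hm : m ≠ 0) : 0 ≤ w (m : F) := by
  rcases Int.natAbs_eq m with h1 | h1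
  · rw [h1, Int.cast_natCast]
    exact w_nat_nonneg h _ (Int.natAbs_ne_zero.2 hm)
  · rw [h1, Int.cast_neg, Int.cast_natCast,
      w_neg h (Nat.cast_ne_zero.2 (Int.natAbs_ne_zero.2 hm))]
    exact w_nat_nonneg h _ (Int.natAbs_ne_zero.2 hm)

theorem w_unit (h : NA p w) (hp : p.Prime) (m : ℤ) (hm : ¬ (p : ℤ) ∣ m) : w (m : F) = 0 := by
  have hm0 : m ≠ 0 := by
    rintro rfl
    exact hm (dvd_zero _)
  refine le_antisymm ?_ (w_int_nonneg h m hm0)
  by_contra hc
  push Not at hc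
  have hcop : IsCoprime m (p : ℤ) :=
    ((Nat.prime_iff_prime_int.1 hp).coprime_iff_not_dvd.2 hm).symm
  obtain ⟨u, v, huv⟩ := hcop
  have hp0 : (p : F) ≠ 0 := Nat.cast_ne_zero.2 hp.ne_zero
  have hmF : (m : F) ≠ 0 := Int.cast_ne_zero.2 hm0
  have hF : (u : F) * (m : F) + (v : F) * (p : F) = 1 := by
    exact_mod_cast congrArg (Int.cast : ℤ → F) huv
  by_cases hu : u = 0
  · rw [hu, zero_mul, zero_add] at huv
    have := (Nat.prime_iff_prime_int.1 hp).not_isUnit
    exact this (IsUnit.of_mul_eq_one v (by rw [mul_comm]; exact huv))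
  have huF : (u : F) ≠ 0 := Int.cast_ne_zero.2 hu
  have h1 : 0 < w ((u : F) * (m : F)) := by
    rw [h.mul _ _ huF hmF]
    have := w_int_nonneg (F := F) h u hu
    linarith
  by_cases hv : v = 0
  · rw [hv, Int.cast_zero, zero_mul, add_zero] at hF
    rw [hF, w_one h] at h1
    exact lt_irrefl _ h1
  have hvF : (v : F) ≠ 0 := Int.cast_ne_zero.2 hv
  have h2 : 0 < w ((v : F) * (p : F)) := by
    rw [h.mul _ _ hvF hp0]
    have := w_int_nonneg (F := F) h v hv
    have := h.pos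
    linarith
  have h3 := h.add _ _ (mul_ne_zero huF hmF) (mul_ne_zero hvF hp0)
    (by rw [hF]; exact one_ne_zero)
  rw [hF, w_one h] at h3
  exact absurd h3 (not_le.2 (lt_min h1 h2))

theorem w_int (h : NA p w) (hp : p.Prime) (m : ℤ) (hm : m ≠ 0) :
    w (m : F) = w (p : F) * padicValInt p m := by
  have : Fact p.Prime := ⟨hp⟩
  have hp0 : (p : F) ≠ 0 := Nat.cast_ne_zero.2 hp.ne_zero
  have hd : (p : ℤ) ^ padicValInt p m ∣ m := padicValInt_dvd m
  obtain ⟨c, hc⟩ := hd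
  have hc0 : c ≠ 0 := by
    rintro rfl
    exact hm (by rw [hc, mul_zero])
  have hpc : ¬ (p : ℤ) ∣ c := by
    rintro ⟨e, he⟩
    have h1 : (p : ℤ) ^ (padicValInt p m + 1) ∣ m := ⟨e, by
      conv_lhs => rw [hc, he]
      ring⟩
    rw [padicValInt_dvd_iff] at h1
    rcases h1 with h1 | h1
    · exact hm h1
    · omega
  conv_lhs => rw [hc]
  rw [Int.cast_mul, Int.cast_pow, Int.cast_natCast,
    h.mul _ _ (pow_ne_zero _ hp0) (Int.cast_ne_zero.2 hc0), w_pow h hp0, w_unit h hp c hpc]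
  ring

theorem w_root (h : NA p w) (ζ : F) (r : ℕ) (hr : 0 < r) (hζ : ζ ^ r = 1) : w ζ = 0 := by
  have h0 : ζ ≠ 0 := by
    rintro rfl
    rw [zero_pow hr.ne'] at hζ
    exact zero_ne_one hζ
  have h1 := w_pow h h0 r
  rw [hζ, w_one h] at h1
  rcases mul_eq_zero.1 h1.symm with h2 | h2
  · exact absurd h2 (by positivity)
  · exact h2

theorem w_dense [IsAlgClosed F] (h : NA p w) (hp : p.Prime) (x y : ℝ) (hxy : x < y) :
    ∃ u : F, u ≠ 0 ∧ x < w u ∧ w u < y := by
  have hp0 : (p : F) ≠ 0 := Nat.cast_ne_zero.2 hp.ne_zero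
  obtain ⟨n, hn⟩ := exists_nat_gt (w (p : F) / (y - x))
  have hyx : 0 < y - x := sub_pos.2 hxy
  have hn0 : (0 : ℝ) < n := lt_trans (div_pos h.pos hyx) hn
  have hn1 : 0 < n := by exact_mod_cast hn0
  obtain ⟨α, hα⟩ := IsAlgClosed.exists_pow_nat_eq (p : F) hn1
  have hα0 : α ≠ 0 := by
    rintro rfl
    rw [zero_pow hn1.ne'] at hα
    exact hp0 hα.symm
  have h1 : (n : ℝ) * w α = w (p : F) := by rw [← w_pow h hα0, hα]
  have hpos : 0 < w α := by
    have := h.pos
    rw [← h1] at this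
    exact (mul_pos_iff_of_pos_left hn0).1 this
  have h2 : w α < y - x := by
    rw [div_lt_iff₀ hyx, ← h1] at hn
    exact lt_of_mul_lt_mul_left hn hn0.le
  refine ⟨α ^ (⌊x / w α⌋ + 1), zpow_ne_zero _ hα0, ?_, ?_⟩
  · rw [w_zpow h hα0]
    have h3 := Int.lt_floor_add_one (x / w α)
    rw [div_lt_iff₀ hpos] at h3
    push_cast
    exact h3
  · rw [w_zpow h hα0]
    have h3 := Int.floor_le (x / w α)
    rw [le_div_iff₀ hpos] at h3
    push_cast
    linarith

end

theorem nab : S_NAB := by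
  intro F _ _ _ p w hp h
  exact ⟨w_one h, fun x hx => w_neg h hx, fun x hx => w_inv h hx, fun x hx n => w_pow h hx n,
    fun x y hx hy => w_div h hx hy, fun x y hxy => w_sub_comm h hxy,
    fun x y hx hy hlt => w_add_of_lt h hx hy hlt, fun a b c h1 h2 h3 => w_tri h h1 h2 h3,
    fun a b c h1 h2 h3 => w_tri_lt h h1 h2 h3, fun m hm => w_int h hp m hm,
    fun ζ r hr hζ => w_root h ζ r hr hζ, fun x y hxy => w_dense h hp x y hxy⟩

end Pool.Agent.H196.PCF
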