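import Pool.Agent.H516.PCF.All

/-!
# Extension of a finite place of a number field to the algebraic closure
-/

set_option autoImplicit false

namespace Pool.Agent.H196.PCF

open Pool.Agent.H516.PCF NumberField IsDedekindDomain HeightOneSpectrum

open scoped WithZero NNReal

/-- extension of a nonarchimedean absolute value to algebraic extensions -/
theorem ext_norm {K F E : Type} [Field K] [Field F] [Algebra K F] [Algebra.IsAlgebraic K F]
    [NontriviallyNormedField E] [IsUltrametricDist E] [CompleteSpace E] (φ : K →+* E) :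
    ∃ N : F → ℝ, (∀ x, x ≠ 0 → 0 < N x) ∧ (∀ x y, N (x * y) = N x * N y) ∧
      (∀ x y, N (x + y) ≤ max (N x) (N y)) ∧ ∀ x : K, N (algebraMap K F x) = ‖φ x‖ := by
  let _ : Algebra K (AlgebraicClosure E) := ((algebraMap E (AlgebraicClosure E)).comp φ).toAlgebra
  let ψ : F →ₐ[K] AlgebraicClosure E := IsAlgClosed.lift
  refine ⟨fun x => spectralNorm E (AlgebraicClosure E) (ψ x), fun x hx => ?_, fun x y => ?_,
    fun x y => ?_, fun x => ?_⟩
  · exact spectralNorm_zero_lt ((map_ne_zero ψ).2 hx) (Algebra.IsAlgebraic.isAlgebraic _)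
  · show spectralNorm E (AlgebraicClosure E) (ψ (x * y)) = _
    rw [map_mul]
    exact spectralAlgNorm_mul _ _
  · show spectralNorm E (AlgebraicClosure E) (ψ (x + y)) ≤ _
    rw [map_add]
    exact isNonarchimedean_spectralNorm _ _
  · show spectralNorm E (AlgebraicClosure E) (ψ (algebraMap K F x)) = _
    rw [AlgHom.commutes]
    exact spectralNorm_extends (φ x)

section place

variable {K : Type} [Field K] [NumberField K] (v : HeightOneSpectrum (𝓞 K))

/-- the completion as a nontrivially normed field -/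
noncomputable abbrev nnf : NontriviallyNormedField (v.adicCompletion K) :=
  Valued.toNontriviallyNormedField (v.adicCompletion K) ℤᵐ⁰

theorem ext_place {F : Type} [Field F] [Algebra K F] [Algebra.IsAlgebraic K F] :
    ∃ N : F → ℝ, (∀ x, x ≠ 0 → 0 < N x) ∧ (∀ x y, N (x * y) = N x * N y) ∧
      (∀ x y, N (x + y) ≤ max (N x) (N y)) ∧
      ∀ x : K, N (algebraMap K F x) = ‖FinitePlace.embedding v x‖ := by
  let _ := nnf v
  have : IsUltrametricDist (v.adicCompletion K) :=
    ⟨fun x y z => by
      have h := Valued.isNonarchimedean_norm (v.adicCompletion K) ℤᵐ⁰ (x - y) (y - z)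
      rw [sub_add_sub_cancel] at h
      simpa [dist_eq_norm] using h⟩
  have : CompleteSpace (v.adicCompletion K) := inferInstance
  exact ext_norm (K := K) (F := F) (E := v.adicCompletion K) (FinitePlace.embedding v)

/-- the values of a finite place -/
theorem place_val (x : K) (hx : x ≠ 0) :
    ∃ z : ℤ, ‖FinitePlace.embedding v x‖ = ((Ideal.absNorm v.asIdeal : ℕ) : ℝ) ^ z := by
  rw [FinitePlace.norm_embedding', WithZeroMulInt.toNNReal_neg_apply _
    ((Valuation.ne_zero_iff _).2 hx)]
  exact ⟨_, by push_cast; rfl⟩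

theorem exists_prime : ∃ p : ℕ, p.Prime ∧ ((p : ℕ) : 𝓞 K) ∈ v.asIdeal := by
  have h1 : ((Ideal.absNorm v.asIdeal : ℕ) : 𝓞 K) ∈ v.asIdeal := Ideal.absNorm_mem _
  have h2 : ∀ n : ℕ, n ≠ 0 → ((n : ℕ) : 𝓞 K) ∈ v.asIdeal →
      ∃ p : ℕ, p.Prime ∧ ((p : ℕ) : 𝓞 K) ∈ v.asIdeal := by
    intro n
    induction n using Nat.recOnMul with
    | zero => intro h; exact absurd rfl h
    | one =>
      intro _ h
      rw [Nat.cast_one] at h
      exact absurd ((Ideal.eq_top_iff_one _).2 h) v.isPrime.ne_top
    | prime p hp => intro _ h; exact ⟨p, hp, h⟩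
    | mul a b iha ihb =>
      intro hab h
      rw [Nat.cast_mul] at h
      rcases v.isPrime.mem_or_mem h with h | h
      · exact iha (left_ne_zero_of_mul hab) h
      · exact ihb (right_ne_zero_of_mul hab) h
  refine h2 _ ?_ h1
  have := HeightOneSpectrum.one_lt_absNorm v
  omega

end place

theorem val : S_VAL := by
  intro K _ _ F _ _ _ _ v
  obtain ⟨p, hp, hpm⟩ := exists_prime v.maximalIdeal
  obtain ⟨N, hN0, hNm, hNa, hNe⟩ := ext_place (F := F) v.maximalIdeal
  have hc1 : (1 : ℝ) < ((Ideal.absNorm v.maximalIdeal.asIdeal : ℕ) : ℝ) := by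
    exact_mod_cast HeightOneSpectrum.one_lt_absNorm v.maximalIdeal
  have hc : 0 < Real.log ((Ideal.absNorm v.maximalIdeal.asIdeal : ℕ) : ℝ) := Real.log_pos hc1
  set c := Real.log ((Ideal.absNorm v.maximalIdeal.asIdeal : ℕ) : ℝ) with hcdef
  have : CharZero F := charZero_of_injective_algebraMap (algebraMap K F).injective
  refine ⟨p, hp, fun x => -Real.log (N x) / c, ⟨fun x y hx hy => ?_, fun x y hx hy hxy => ?_,
    ?_⟩, c, hc, fun x hx => ?_⟩
  · show -Real.log (N (x * y)) / c = -Real.log (N x) / c + -Real.log (N y) / c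
    rw [hNm, Real.log_mul (hN0 x hx).ne' (hN0 y hy).ne']
    ring
  · show min (-Real.log (N x) / c) (-Real.log (N y) / c) ≤ -Real.log (N (x + y)) / c
    rcases le_max_iff.1 (hNa x y) with h | h
    · refine min_le_of_left_le ?_
      rw [div_le_div_iff_of_pos_right hc, neg_le_neg_iff]
      exact Real.log_le_log (hN0 _ hxy) h
    · refine min_le_of_right_le ?_
      rw [div_le_div_iff_of_pos_right hc, neg_le_neg_iff]
      exact Real.log_le_log (hN0 _ hxy) h
  · show 0 < -Real.log (N (p : F)) / c
    have h1 : N (p : F) < 1 := by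
      have h2 := hNe (p : K)
      rw [map_natCast] at h2
      rw [h2]
      have h3 := (FinitePlace.norm_lt_one_iff_mem K v.maximalIdeal ((p : ℕ) : 𝓞 K)).2 hpm
      rwa [map_natCast] at h3
    have h4 : 0 < N (p : F) := hN0 _ (Nat.cast_ne_zero.2 hp.ne_zero)
    exact div_pos (neg_pos.2 (Real.log_neg h4 h1)) hc
  · have hx' : algebraMap K F x ≠ 0 := (map_ne_zero _).2 hx
    constructor
    · obtain ⟨z, hz⟩ := place_val v.maximalIdeal x hx
      refine ⟨-z, ?_⟩
      show -Real.log (N (algebraMap K F x)) / c = _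
      rw [hNe, hz, Real.log_zpow, ← hcdef]
      push_cast
      field_simp
    · show v x = Real.exp (-(c * (-Real.log (N (algebraMap K F x)) / c)))
      have h1 : -(c * (-Real.log (N (algebraMap K F x)) / c)) =
          Real.log (N (algebraMap K F x)) := by
        field_simp
      rw [h1, Real.exp_log (hN0 _ hx'), hNe, FinitePlace.norm_embedding_eq]

end Pool.Agent.H196.PCF
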